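import Pool.Agent.Helper46.R.Welsh2

set_option autoImplicit false

namespace Pool.Agent.Results.MP_8e2a6e_co.LogDensity

open Finset

/-- The number `f_r(n)` of isomorphism classes of matroids of rank `r` on `n` elements. -/
noncomputable def f (n r : ℕ) : ℕ :=
  Nat.card (Quot (fun M₁ M₂ : {M : Matroid (Fin n) // M.E = Set.univ ∧ M.eRank = (r : ℕ∞)} =>
    ∃ σ : Equiv.Perm (Fin n), ∀ I : Set (Fin n), M₁.val.Indep I ↔ M₂.val.Indep (σ '' I)))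

/-- Welsh's assertion at `n`: `f_r(n)` is largest for `r = ⌊n / 2⌋`. -/
def WelshAt (n : ℕ) : Prop := ∀ r : ℕ, f n r ≤ f n (n / 2)

/-- All ranks `r` with `|2 r - n| ≥ 2 K + 2` satisfy `2 ^ n * f_r(n) ≤ f_{⌊n / 2⌋}(n)`. -/
def WelshOutside (K n : ℕ) : Prop := ∀ r : ℕ, (2 * r + 2 * K + 2 ≤ n ∨ n + 2 * K + 2 ≤ 2 * r) →
  f n r * 2 ^ n ≤ f n (n / 2)

open Classical in
/-- (1) Welsh's assertion holds (for all ranks at once) for a set of `n` of lower logarithmic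
density at least `1 / 2`. (2) For every `K`, the inequality `2 ^ n * f_r(n) ≤ f_{⌊n / 2⌋}(n)` holds
for all `r` with `|2 r - n| ≥ 2 K + 2` for a set of `n` of lower logarithmic density at least
`1 - (2 K + 1) / (2 (K + 1) ^ 2)`. (3) The number of exceptional `n` in (2) with `N / 2 < n ≤ N`
is at most `C N log N / K`, uniformly for `1 ≤ K ≤ √N`. -/
theorem result :
    (∀ ε : ℝ, 0 < ε → ∃ N0 : ℕ, ∀ N : ℕ, N0 ≤ N →
      (1 / 2 - ε) * Real.log N ≤ ∑ n ∈ (Icc 1 N).filter WelshAt, (1 : ℝ) / n) ∧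
    (∀ (K : ℕ) (ε : ℝ), 0 < ε → ∃ N0 : ℕ, ∀ N : ℕ, N0 ≤ N →
      (1 - (2 * (K : ℝ) + 1) / (2 * ((K : ℝ) + 1) ^ 2) - ε) * Real.log N ≤
        ∑ n ∈ (Icc 1 N).filter (WelshOutside K), (1 : ℝ) / n) ∧
    ∃ C : ℝ, 0 < C ∧ ∀ N : ℕ, 2 ≤ N → ∀ K : ℕ, 1 ≤ K → K ^ 2 ≤ N →
      (((Ioc (N / 2) N).filter (fun n : ℕ => ¬ WelshOutside K n)).card : ℝ) ≤
        C * N * Real.log N / K := by
  refine ⟨fun ε hε => ?_, fun K ε hε => Helper46.R.wg_main K ε hε, Helper46.R.wg_window⟩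
  obtain ⟨N0, h⟩ := Helper46.R.welsh_main ε hε
  refine ⟨N0, fun N hN => (h N hN).trans ?_⟩
  refine sum_le_sum_of_subset_of_nonneg (fun n hn => ?_) (fun n _ _ => by positivity)
  rw [mem_filter] at hn ⊢
  exact ⟨hn.1, fun r => (hn.2 r).1⟩

end Pool.Agent.Results.MP_8e2a6e_co.LogDensity
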