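import Pool.Agent.Helper46.R.Welsh20

set_option autoImplicit false

namespace Pool.Agent.Results.MP_8e2a6e_co.PositiveProportion

open Finset

/-- The number `f_r(n)` of isomorphism classes of matroids of rank `r` on `n` elements. -/
noncomputable def f (n r : ℕ) : ℕ :=
  Nat.card (Quot (fun M₁ M₂ : {M : Matroid (Fin n) // M.E = Set.univ ∧ M.eRank = (r : ℕ∞)} =>
    ∃ σ : Equiv.Perm (Fin n), ∀ I : Set (Fin n), M₁.val.Indep I ↔ M₂.val.Indep (σ '' I)))

/-- Welsh's assertion at `n` in a strong form: `f_r(n)` is largest for `r = ⌊n / 2⌋`, and it is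
smaller by a factor `2 ^ n` at least if `r` is not `⌊n / 2⌋` or `⌈n / 2⌉`. -/
def WelshAt (n : ℕ) : Prop :=
  ∀ r : ℕ, f n r ≤ f n (n / 2) ∧
    ((2 * r + 2 ≤ n ∨ n + 2 ≤ 2 * r) → f n r * 2 ^ n ≤ f n (n / 2))

open Classical in
/-- For all large `N`, Welsh's assertion holds for at least `N / 20` of the integers `1 ≤ n ≤ N`. -/
theorem result : ∃ N0 : ℕ, ∀ N : ℕ, N0 ≤ N →
    (N : ℝ) / 20 ≤ (((Icc 1 N).filter WelshAt).card : ℝ) :=
  Helper46.R.welsh_20

end Pool.Agent.Results.MP_8e2a6e_co.PositiveProportion
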